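import Mathlib

/-!
# Orderings of the omega-primality values of three generators

For a numerical monoid generated by `n₁ < n₂ < n₃` the value `ω(n₃)` is at least the smaller one of
`ω(n₁)`, `ω(n₂)`.  Hence none of the orderings `ω(n₁) > ω(n₂) > ω(n₃)`, `ω(n₁) = ω(n₂) > ω(n₃)`,
`ω(n₃) < ω(n₁) < ω(n₂)` occurs.

Idea: let `c i` be the least positive integer such that `c i * n i` is a combination of the two other
generators. Every `ω(n j)` is at least `c i` for `i ≠ j`, and `ω(n₃) > c 3`. Conversely, either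
`ω(n₁) ≤ max (c 1) (c 2) (c 3)`, or `c 2 * n₂ = c 3 * n₃` has no factorization with `n₁` and then
`ω(n₂) ≤ max (c 1) (c 3)`.
-/

set_option autoImplicit false

namespace Pool.Agent.Results.MP_1fb722_al.NoThreeOrderings

/-- `x ≼ y` in the monoid `Γ`: `y - x` is an element of `Γ`. -/
def Le (Γ : AddSubmonoid ℕ) (x y : ℕ) : Prop := ∃ g ∈ Γ, y = x + g

/-- Whenever `x ≼ a 1 + ... + a r` with all `a i` in `Γ`, a sum of at most `N` of the `a i` is
already `≽ x`. -/
def Bound (Γ : AddSubmonoid ℕ) (x N : ℕ) : Prop :=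
  ∀ (r : ℕ) (a : Fin r → ℕ), (∀ i, a i ∈ Γ) → Le Γ x (∑ i, a i) →
    ∃ T : Finset (Fin r), T.card ≤ N ∧ Le Γ x (∑ i ∈ T, a i)

/-- The omega-primality value: the least positive integer with the property `Bound`. -/
noncomputable def omega (Γ : AddSubmonoid ℕ) (x : ℕ) : ℕ := sInf {N | 1 ≤ N ∧ Bound Γ x N}

/-- the monoid as a set of combinations -/
def Cmb (p q r x : ℕ) : Prop := ∃ a b c : ℕ, x = a * p + b * q + c * r

lemma mem_iff (p q r x : ℕ) :
    x ∈ AddSubmonoid.closure ({p, q, r} : Set ℕ) ↔ Cmb p q r x := by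
  constructor
  · intro h
    induction h using AddSubmonoid.closure_induction with
    | mem x hx =>
      rcases hx with rfl | rfl | rfl
      · exact ⟨1, 0, 0, by ring⟩
      · exact ⟨0, 1, 0, by ring⟩
      · exact ⟨0, 0, 1, by ring⟩
    | zero => exact ⟨0, 0, 0, by ring⟩
    | add x y _ _ hx hy =>
      obtain ⟨a, b, c, rfl⟩ := hx
      obtain ⟨a', b', c', rfl⟩ := hy
      exact ⟨a + a', b + b', c + c', by ring⟩
  · rintro ⟨a, b, c, rfl⟩
    have hp : p ∈ AddSubmonoid.closure ({p, q, r} : Set ℕ) := AddSubmonoid.subset_closure (by simp)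
    have hq : q ∈ AddSubmonoid.closure ({p, q, r} : Set ℕ) := AddSubmonoid.subset_closure (by simp)
    have hr : r ∈ AddSubmonoid.closure ({p, q, r} : Set ℕ) := AddSubmonoid.subset_closure (by simp)
    have h1 := nsmul_mem hp a
    have h2 := nsmul_mem hq b
    have h3 := nsmul_mem hr c
    simp only [smul_eq_mul] at h1 h2 h3
    exact add_mem (add_mem h1 h2) h3

/-- `Γ` is generated by `p`, `q`, `r` -/
def Gen (Γ : AddSubmonoid ℕ) (p q r : ℕ) : Prop := ∀ x, x ∈ Γ ↔ Cmb p q r x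

lemma Gen.le {Γ : AddSubmonoid ℕ} {p q r : ℕ} (h : Gen Γ p q r) (x y : ℕ) :
    Le Γ x y ↔ ∃ a b c : ℕ, y = x + (a * p + b * q + c * r) := by
  constructor
  · rintro ⟨g, hg, rfl⟩
    obtain ⟨a, b, c, rfl⟩ := (h g).1 hg
    exact ⟨a, b, c, rfl⟩
  · rintro ⟨a, b, c, rfl⟩
    exact ⟨_, (h _).2 ⟨a, b, c, rfl⟩, rfl⟩

lemma Gen.rot {Γ : AddSubmonoid ℕ} {p q r : ℕ} (h : Gen Γ p q r) : Gen Γ q r p := by
  intro x
  rw [h x]
  constructor
  · rintro ⟨a, b, c, rfl⟩
    exact ⟨b, c, a, by ring⟩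
  · rintro ⟨a, b, c, rfl⟩
    exact ⟨c, a, b, by ring⟩

lemma Gen.swap {Γ : AddSubmonoid ℕ} {p q r : ℕ} (h : Gen Γ p q r) : Gen Γ p r q := by
  intro x
  rw [h x]
  constructor
  · rintro ⟨a, b, c, rfl⟩
    exact ⟨a, c, b, by ring⟩
  · rintro ⟨a, b, c, rfl⟩
    exact ⟨a, c, b, by ring⟩

/-- `c` is the least positive integer such that `c * p` is a combination of `q` and `r` -/
structure Cst (p q r c : ℕ) : Prop where
  pos : 0 < c
  ex : ∃ a b : ℕ, c * p = a * q + b * r
  min : ∀ d : ℕ, 0 < d → (∃ a b : ℕ, d * p = a * q + b * r) → c ≤ d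

lemma Cst.exists (p q r : ℕ) (hq : 0 < q) : ∃ c, Cst p q r c := by
  classical
  have h : ∃ c : ℕ, 0 < c ∧ ∃ a b : ℕ, c * p = a * q + b * r := ⟨q, hq, p, 0, by ring⟩
  refine ⟨Nat.find h, (Nat.find_spec h).1, (Nat.find_spec h).2, ?_⟩
  intro d hd hd2
  exact Nat.find_min' h ⟨hd, hd2⟩

lemma Cst.swap {p q r c : ℕ} (h : Cst p q r c) : Cst p r q c := by
  refine ⟨h.pos, ?_, ?_⟩
  · obtain ⟨a, b, hab⟩ := h.ex
    exact ⟨b, a, by rw [hab]; ring⟩
  · rintro d hd ⟨a, b, hab⟩
    exact h.min d hd ⟨b, a, by rw [hab]; ring⟩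

/-- below `c * p` the multiples of `p` have only one factorization -/
lemma Cst.unique {p q r c : ℕ} (h : Cst p q r c) (hq : 0 < q) (hr : 0 < r)
    {d u v w : ℕ} (hd : d < c) (he : d * p = u * p + v * q + w * r) : v = 0 ∧ w = 0 := by
  by_contra hne
  have hpos : 0 < v * q + w * r := by
    rcases Nat.eq_zero_or_pos v with hv | hv
    · rcases Nat.eq_zero_or_pos w with hw | hw
      · exact absurd ⟨hv, hw⟩ hne
      · have := Nat.mul_pos hw hr
        omega
    · have := Nat.mul_pos hv hq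
      omega
  have hud : u < d := by
    by_contra hcon
    push Not at hcon
    have := Nat.mul_le_mul_right p hcon
    omega
  have h1 : (d - u) * p = v * q + w * r := by
    rw [Nat.sub_mul]
    omega
  have := h.min (d - u) (by omega) ⟨v, w, h1⟩
  omega

/-- lower bound for the value at `q` -/
lemma lower1 {Γ : AddSubmonoid ℕ} {p q r c N : ℕ} (hG : Gen Γ p q r) (hp : 0 < p) (hq : 0 < q)
    (hr : 0 < r) (hc : Cst p q r c) (hN : Bound Γ q N) : c ≤ N := by
  have hpm : p ∈ Γ := (hG p).2 ⟨1, 0, 0, by ring⟩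
  obtain ⟨T, hT, hle⟩ := hN q (fun _ => p) (fun _ => hpm) (by
    rw [hG.le]
    refine ⟨0, p - 1, 0, ?_⟩
    simp only [Finset.sum_const, Finset.card_univ, Fintype.card_fin, smul_eq_mul]
    obtain ⟨p', rfl⟩ : ∃ p', p = p' + 1 := ⟨p - 1, by omega⟩
    simp only [Nat.add_sub_cancel]
    ring)
  rw [hG.le] at hle
  obtain ⟨u, v, w, h⟩ := hle
  simp only [Finset.sum_const, smul_eq_mul] at h
  by_contra hcon
  push Not at hcon
  have := hc.unique hq hr (d := T.card) (u := u) (v := v + 1) (w := w) (by omega) (by rw [h]; ring)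
  omega

/-- lower bound for the value at `r` from a factorization of `c * r` -/
lemma lower2 {Γ : AddSubmonoid ℕ} {p q r c N a b : ℕ} (hG : Gen Γ p q r) (hp : 0 < p) (hq : 0 < q)
    (hr : 0 < r) (hc : Cst r p q c) (hab : c * r = a * p + b * q) (hN : Bound Γ r N) :
    a + b ≤ N := by
  classical
  have hpm : p ∈ Γ := (hG p).2 ⟨1, 0, 0, by ring⟩
  have hqm : q ∈ Γ := (hG q).2 ⟨0, 1, 0, by ring⟩
  set f : Fin (a + b) → ℕ := fun i => if i.val < a then p else q with hf
  have hcard1 : (Finset.univ.filter (fun i : Fin (a + b) => i.val < a)).card = a := by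
    rw [Fin.card_filter_val_lt]
    omega
  have hcard2 : (Finset.univ.filter (fun i : Fin (a + b) => ¬ i.val < a)).card = b := by
    have h1 := Finset.card_filter_add_card_filter_not (s := (Finset.univ : Finset (Fin (a + b))))
      (fun i : Fin (a + b) => i.val < a)
    rw [hcard1, Finset.card_univ, Fintype.card_fin] at h1
    omega
  have hsum : ∀ T : Finset (Fin (a + b)), ∑ i ∈ T, f i =
      (T.filter (fun i => i.val < a)).card * p + (T.filter (fun i => ¬ i.val < a)).card * q := by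
    intro T
    rw [hf, Finset.sum_ite, Finset.sum_const, Finset.sum_const, smul_eq_mul, smul_eq_mul]
  have hc1 : 1 ≤ c := hc.pos
  obtain ⟨T, hT, hle⟩ := hN (a + b) f (by
    intro i
    simp only [hf]
    split_ifs
    · exact hpm
    · exact hqm) (by
    rw [hG.le]
    refine ⟨0, 0, c - 1, ?_⟩
    rw [hsum, hcard1, hcard2, ← hab]
    obtain ⟨c', rfl⟩ : ∃ c', c = c' + 1 := ⟨c - 1, by omega⟩
    simp only [Nat.add_sub_cancel]
    ring)
  rw [hG.le] at hle
  obtain ⟨u, v, w, h⟩ := hle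
  rw [hsum] at h
  set a' := (T.filter (fun i => i.val < a)).card with ha'
  set b' := (T.filter (fun i => ¬ i.val < a)).card with hb'
  have hTc : a' + b' = T.card := Finset.card_filter_add_card_filter_not (s := T) _
  have haa : a' ≤ a := by
    rw [← hcard1]
    exact Finset.card_le_card (Finset.filter_subset_filter _ (Finset.subset_univ _))
  have hbb : b' ≤ b := by
    rw [← hcard2]
    exact Finset.card_le_card (Finset.filter_subset_filter _ (Finset.subset_univ _))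
  obtain ⟨x, hx⟩ : ∃ x, a = a' + x := ⟨a - a', by omega⟩
  obtain ⟨y, hy⟩ : ∃ y, b = b' + y := ⟨b - b', by omega⟩
  have key : (c - 1) * r = w * r + (u + x) * p + (v + y) * q := by
    have e1 : c * r = (c - 1) * r + r := by
      obtain ⟨c', rfl⟩ : ∃ c', c = c' + 1 := ⟨c - 1, by omega⟩
      simp only [Nat.add_sub_cancel]
      ring
    have e2 : a * p + b * q = a' * p + b' * q + (x * p + y * q) := by
      have e3 : a * p = a' * p + x * p := by rw [hx]; ring
      have e4 : b * q = b' * q + y * q := by rw [hy]; ring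
      omega
    have e5 : (u + x) * p = u * p + x * p := by ring
    have e6 : (v + y) * q = v * q + y * q := by ring
    omega
  have := hc.unique hp hq (d := c - 1) (by omega) key
  omega

/-- few summands suffice to reach `v` -/
lemma greedy {ι : Type} [DecidableEq ι] (f : ι → ℕ) (s : Finset ι) : ∀ v : ℕ, v ≤ ∑ i ∈ s, f i →
    ∃ T ⊆ s, T.card ≤ v ∧ v ≤ ∑ i ∈ T, f i := by
  induction s using Finset.induction_on with
  | empty =>
    intro v hv
    exact ⟨∅, by simp, by simp, by simpa using hv⟩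
  | insert i s hi ih =>
    intro v hv
    rw [Finset.sum_insert hi] at hv
    by_cases h : v ≤ ∑ j ∈ s, f j
    · obtain ⟨T, hT1, hT2, hT3⟩ := ih v h
      exact ⟨T, hT1.trans (Finset.subset_insert _ _), hT2, hT3⟩
    · push Not at h
      obtain ⟨T, hT1, hT2, hT3⟩ := ih (v - f i) (by omega)
      have hiT : i ∉ T := fun hh => hi (hT1 hh)
      refine ⟨insert i T, Finset.insert_subset_insert _ hT1, ?_, ?_⟩
      · rw [Finset.card_insert_of_notMem hiT]
        omega
      · rw [Finset.sum_insert hiT]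
        omega

/-- upper bound for the value at `p` -/
lemma upper {Γ : AddSubmonoid ℕ} {p q r M : ℕ} (hG : Gen Γ p q r) (hM : 1 ≤ M)
    (h1 : ∃ m ≤ M, Le Γ p (m * q)) (h2 : ∃ m ≤ M, Le Γ p (m * r))
    (h3 : ∀ a b : ℕ, 0 < a → 0 < b → Le Γ p (a * q + b * r) → ¬ Le Γ p ((a - 1) * q + b * r) →
      ¬ Le Γ p (a * q + (b - 1) * r) → a + b ≤ M) : Bound Γ p M := by
  classical
  intro n a ha hle
  have hx : ∀ i, ∃ u v w : ℕ, a i = u * p + v * q + w * r := fun i => (hG _).1 (ha i)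
  choose u v w huvw using hx
  by_cases hu : ∃ i, 0 < u i
  · obtain ⟨i, hi⟩ := hu
    refine ⟨{i}, by simpa using hM, ?_⟩
    rw [Finset.sum_singleton, hG.le]
    refine ⟨u i - 1, v i, w i, ?_⟩
    rw [huvw i]
    obtain ⟨t, ht⟩ : ∃ t, u i = t + 1 := ⟨u i - 1, by omega⟩
    rw [ht]
    simp only [Nat.add_sub_cancel]
    ring
  · push Not at hu
    have hav : ∀ i, a i = v i * q + w i * r := by
      intro i
      have := hu i
      rw [huvw i, Nat.le_zero.1 this]
      ring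
    have hsum : ∀ T : Finset (Fin n), ∑ i ∈ T, a i = (∑ i ∈ T, v i) * q + (∑ i ∈ T, w i) * r := by
      intro T
      rw [Finset.sum_mul, Finset.sum_mul, ← Finset.sum_add_distrib]
      exact Finset.sum_congr rfl fun i _ => hav i
    rw [hsum] at hle
    set V := ∑ i, v i with hV
    set W := ∑ i, w i with hW
    -- a pair with least sum
    have hex : ∃ s : ℕ, ∃ x y : ℕ, x ≤ V ∧ y ≤ W ∧ Le Γ p (x * q + y * r) ∧ x + y = s :=
      ⟨V + W, V, W, le_rfl, le_rfl, hle, rfl⟩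
    obtain ⟨x, y, hxV, hyW, hxy, hs⟩ := Nat.find_spec hex
    have hmin : ∀ x' y' : ℕ, x' ≤ V → y' ≤ W → Le Γ p (x' * q + y' * r) → x + y ≤ x' + y' := by
      intro x' y' hx' hy' h'
      rw [hs]
      exact Nat.find_min' hex ⟨x', y', hx', hy', h', rfl⟩
    have hxyM : x + y ≤ M := by
      rcases Nat.eq_zero_or_pos x with hx0 | hx0
      · obtain ⟨m, hm, hmr⟩ := h2
        by_contra hcon
        push Not at hcon
        have := hmin 0 m (by omega) (by omega) (by simpa using hmr)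
        omega
      · rcases Nat.eq_zero_or_pos y with hy0 | hy0
        · obtain ⟨m, hm, hmr⟩ := h1
          by_contra hcon
          push Not at hcon
          have := hmin m 0 (by omega) (by omega) (by simpa using hmr)
          omega
        · refine h3 x y hx0 hy0 hxy ?_ ?_
          · intro hh
            have := hmin (x - 1) y (by omega) hyW hh
            omega
          · intro hh
            have := hmin x (y - 1) hxV (by omega) hh
            omega
    obtain ⟨T1, -, hT1c, hT1⟩ := greedy v Finset.univ x hxV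
    obtain ⟨T2, -, hT2c, hT2⟩ := greedy w Finset.univ y hyW
    refine ⟨T1 ∪ T2, (Finset.card_union_le _ _).trans (by omega), ?_⟩
    have e1 : x ≤ ∑ i ∈ T1 ∪ T2, v i :=
      hT1.trans (Finset.sum_le_sum_of_subset Finset.subset_union_left)
    have e2 : y ≤ ∑ i ∈ T1 ∪ T2, w i :=
      hT2.trans (Finset.sum_le_sum_of_subset Finset.subset_union_right)
    rw [hG.le] at hxy ⊢
    obtain ⟨α, β, γ, h⟩ := hxy
    obtain ⟨s1, hs1⟩ := Nat.exists_eq_add_of_le e1
    obtain ⟨s2, hs2⟩ := Nat.exists_eq_add_of_le e2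
    refine ⟨α, β + s1, γ + s2, ?_⟩
    rw [hsum, hs1, hs2]
    nlinarith [h]

/-- a mixed minimal pair is a factorization of `c * p` -/
lemma mixed {Γ : AddSubmonoid ℕ} {p q r c a b : ℕ} (hG : Gen Γ p q r) (hp : 0 < p)
    (hc : Cst p q r c) (ha : 0 < a) (hb : 0 < b) (h : Le Γ p (a * q + b * r))
    (h1 : ¬ Le Γ p ((a - 1) * q + b * r)) (h2 : ¬ Le Γ p (a * q + (b - 1) * r)) :
    a * q + b * r = c * p := by
  rw [hG.le] at h h1 h2
  obtain ⟨u, v, w, h⟩ := h
  obtain ⟨a', rfl⟩ : ∃ a', a = a' + 1 := ⟨a - 1, by omega⟩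
  obtain ⟨b', rfl⟩ : ∃ b', b = b' + 1 := ⟨b - 1, by omega⟩
  simp only [Nat.add_sub_cancel] at h1 h2
  have hv : v = 0 := by
    by_contra hv
    obtain ⟨v', rfl⟩ : ∃ v', v = v' + 1 := ⟨v - 1, by omega⟩
    exact h1 ⟨u, v', w, by nlinarith [h]⟩
  have hw : w = 0 := by
    by_contra hw
    obtain ⟨w', rfl⟩ : ∃ w', w = w' + 1 := ⟨w - 1, by omega⟩
    exact h2 ⟨u, v, w', by nlinarith [h]⟩
  subst hv hw
  have hP : (u + 1) * p = (a' + 1) * q + (b' + 1) * r := by nlinarith [h]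
  have hcu : c ≤ u + 1 := hc.min (u + 1) (by omega) ⟨_, _, hP⟩
  rcases Nat.lt_or_ge c (u + 1) with hlt | hge
  · exfalso
    obtain ⟨s, t, hst⟩ := hc.ex
    obtain ⟨k, hk⟩ : ∃ k, u + 1 = c + (k + 1) := ⟨u - c, by omega⟩
    have e : (a' + 1) * q + (b' + 1) * r = (k + 1) * p + s * q + t * r := by
      rw [← hP, hk]
      nlinarith [hst]
    rcases Nat.eq_zero_or_pos s with hs | hs
    · rcases Nat.eq_zero_or_pos t with ht | ht
      · rw [hs, ht] at hst
        have := Nat.mul_pos hc.pos hp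
        omega
      · obtain ⟨t', rfl⟩ : ∃ t', t = t' + 1 := ⟨t - 1, by omega⟩
        exact h2 ⟨k, s, t', by nlinarith [e]⟩
    · obtain ⟨s', rfl⟩ : ∃ s', s = s' + 1 := ⟨s - 1, by omega⟩
      exact h1 ⟨k, s', t, by nlinarith [e]⟩
  · have : c = u + 1 := le_antisymm hcu hge
    rw [this, hP]

/-- the value is finite -/
lemma exists_bound {Γ : AddSubmonoid ℕ} {p q r : ℕ} (hG : Gen Γ p q r) (hp : 0 < p) (hq : 0 < q)
    (hr : 0 < r) : ∃ N, 1 ≤ N ∧ Bound Γ p N := by
  obtain ⟨c, hc⟩ := Cst.exists p q r hq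
  refine ⟨p + c * p, by omega, upper hG (by omega) ⟨p, by omega, ?_⟩ ⟨p, by omega, ?_⟩ ?_⟩
  · rw [hG.le]
    refine ⟨q - 1, 0, 0, ?_⟩
    obtain ⟨t, rfl⟩ : ∃ t, q = t + 1 := ⟨q - 1, by omega⟩
    simp only [Nat.add_sub_cancel]
    ring
  · rw [hG.le]
    refine ⟨r - 1, 0, 0, ?_⟩
    obtain ⟨t, rfl⟩ : ∃ t, r = t + 1 := ⟨r - 1, by omega⟩
    simp only [Nat.add_sub_cancel]
    ring
  · intro a b ha hb h h1 h2
    have e := mixed hG hp hc ha hb h h1 h2
    have h3 : a ≤ a * q := Nat.le_mul_of_pos_right a hq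
    have h4 : b ≤ b * r := Nat.le_mul_of_pos_right b hr
    omega

lemma isLeast {Γ : AddSubmonoid ℕ} {p q r : ℕ} (hG : Gen Γ p q r) (hp : 0 < p) (hq : 0 < q)
    (hr : 0 < r) : IsLeast {N | 1 ≤ N ∧ Bound Γ p N} (omega Γ p) := by
  obtain ⟨N, hN⟩ := exists_bound hG hp hq hr
  exact ⟨Nat.sInf_mem (s := {N | 1 ≤ N ∧ Bound Γ p N}) ⟨N, hN⟩, fun M hM => Nat.sInf_le hM⟩

/-- the exceptional case: `c₂ q = c₃ r` has no factorization with `p` -/
lemma exceptional {p q r c₂ c₃ : ℕ} (hp : 0 < p) (hq : 0 < q) (hr : 0 < r) (h₂ : Cst q p r c₂)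
    (h₃ : Cst r p q c₃) (hno : ∀ a b : ℕ, 0 < a → c₂ * q ≠ a * p + b * r) :
    c₂ * q = c₃ * r := by
  obtain ⟨a, s, has⟩ := h₂.ex
  have ha : a = 0 := by
    by_contra ha
    exact hno a s (by omega) has
  subst ha
  have hs : c₂ * q = s * r := by omega
  have hspos : 0 < s := by
    rcases Nat.eq_zero_or_pos s with h | h
    · have := Nat.mul_pos h₂.pos hq
      rw [h] at hs
      omega
    · exact h
  have hs3 : c₃ ≤ s := h₃.min s hspos ⟨0, c₂, by omega⟩
  obtain ⟨k, rfl⟩ := Nat.exists_eq_add_of_le hs3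
  obtain ⟨x, y, hxy⟩ := h₃.ex
  have hx : x = 0 := by
    by_contra hx
    have e : c₂ * q = x * p + y * q + k * r := by nlinarith [hs, hxy]
    have hxp : 0 < x * p := Nat.mul_pos (by omega) hp
    have hyc : y < c₂ := by
      by_contra hcon
      push Not at hcon
      have := Nat.mul_le_mul_right q hcon
      omega
    rcases Nat.eq_zero_or_pos y with hy | hy
    · subst hy
      exact hno x k (by omega) (by omega)
    · have e2 : (c₂ - y) * q = x * p + k * r := by
        rw [Nat.sub_mul]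
        omega
      have := h₂.min (c₂ - y) (by omega) ⟨x, k, e2⟩
      omega
  subst hx
  have hy : c₃ * r = y * q := by omega
  have hypos : 0 < y := by
    rcases Nat.eq_zero_or_pos y with h | h
    · have := Nat.mul_pos h₃.pos hr
      rw [h] at hy
      omega
    · exact h
  have h5 : c₂ ≤ y := h₂.min y hypos ⟨0, c₃, by omega⟩
  have h6 : c₂ * q ≤ y * q := Nat.mul_le_mul_right q h5
  have h7 : (c₃ + k) * r = c₃ * r + k * r := by ring
  omega

theorem main {Γ : AddSubmonoid ℕ} {n₁ n₂ n₃ : ℕ} (hG : Gen Γ n₁ n₂ n₃) (h0 : 0 < n₁)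
    (h12 : n₁ < n₂) (h23 : n₂ < n₃) : min (omega Γ n₁) (omega Γ n₂) ≤ omega Γ n₃ := by
  have p1 : 0 < n₁ := h0
  have p2 : 0 < n₂ := by omega
  have p3 : 0 < n₃ := by omega
  obtain ⟨hM1, hM⟩ := (isLeast hG.rot.rot p3 p1 p2).1
  set M := omega Γ n₃ with hMdef
  obtain ⟨c₁, h₁⟩ := Cst.exists n₁ n₂ n₃ p2
  obtain ⟨c₂, h₂⟩ := Cst.exists n₂ n₁ n₃ p1
  obtain ⟨c₃, h₃⟩ := Cst.exists n₃ n₁ n₂ p1
  have m1 : c₁ ≤ M := lower1 hG.swap p1 p3 p2 h₁.swap hM
  have m2 : c₂ ≤ M := lower1 hG.rot p2 p3 p1 h₂.swap hM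
  have m3 : c₃ ≤ M := by
    obtain ⟨a, b, hab⟩ := h₃.ex
    have h := lower2 hG p1 p2 p3 h₃ hab hM
    by_contra hcon
    push Not at hcon
    have e1 : a * n₁ ≤ a * n₃ := Nat.mul_le_mul_left a (by omega)
    have e2 : b * n₂ ≤ b * n₃ := Nat.mul_le_mul_left b (by omega)
    have e3 : (a + b + 1) * n₃ ≤ c₃ * n₃ := Nat.mul_le_mul_right n₃ (by omega)
    nlinarith
  by_cases hcase : (∃ a b : ℕ, 0 < a ∧ c₂ * n₂ = a * n₁ + b * n₃) ∧
      (∃ a b : ℕ, 0 < a ∧ c₃ * n₃ = a * n₁ + b * n₂)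
  · obtain ⟨⟨a, b, ha, hab⟩, ⟨a', b', ha', hab'⟩⟩ := hcase
    have hB : Bound Γ n₁ M := by
      refine upper hG hM1 ⟨c₂, m2, ?_⟩ ⟨c₃, m3, ?_⟩ ?_
      · rw [hG.le]
        refine ⟨a - 1, 0, b, ?_⟩
        obtain ⟨t, rfl⟩ : ∃ t, a = t + 1 := ⟨a - 1, by omega⟩
        rw [hab]
        simp only [Nat.add_sub_cancel]
        ring
      · rw [hG.le]
        refine ⟨a' - 1, b', 0, ?_⟩
        obtain ⟨t, rfl⟩ : ∃ t, a' = t + 1 := ⟨a' - 1, by omega⟩
        rw [hab']
        simp only [Nat.add_sub_cancel]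
        ring
      · intro x y hx hy h h1 h2
        have e := mixed hG p1 h₁ hx hy h h1 h2
        have e1 : x * n₁ ≤ x * n₂ := Nat.mul_le_mul_left x (by omega)
        have e2 : y * n₁ ≤ y * n₃ := Nat.mul_le_mul_left y (by omega)
        by_contra hcon
        push Not at hcon
        have e3 : c₁ * n₁ < (x + y) * n₁ := Nat.mul_lt_mul_of_pos_right (by omega) p1
        nlinarith
    exact (min_le_left _ _).trans (Nat.sInf_le ⟨hM1, hB⟩)
  · -- the exceptional case
    have key : c₂ * n₂ = c₃ * n₃ ∧ ∀ a b : ℕ, 0 < a → c₂ * n₂ ≠ a * n₁ + b * n₃ := by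
      rw [not_and_or] at hcase
      rcases hcase with hc | hc
      · have hno : ∀ a b : ℕ, 0 < a → c₂ * n₂ ≠ a * n₁ + b * n₃ :=
          fun a b ha hab => hc ⟨a, b, ha, hab⟩
        exact ⟨exceptional p1 p2 p3 h₂ h₃ hno, hno⟩
      · have hno : ∀ a b : ℕ, 0 < a → c₃ * n₃ ≠ a * n₁ + b * n₂ :=
          fun a b ha hab => hc ⟨a, b, ha, hab⟩
        have e := exceptional p1 p3 p2 h₃ h₂ hno
        refine ⟨e.symm, ?_⟩
        intro a b ha hab
        rw [← e] at hab
        -- c₃ n₃ = a n₁ + b n₃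
        have hbc : b < c₃ := by
          by_contra hcon
          push Not at hcon
          have := Nat.mul_le_mul_right n₃ hcon
          have := Nat.mul_pos ha p1
          omega
        have e2 : (c₃ - b) * n₃ = a * n₁ + 0 * n₂ := by
          rw [Nat.sub_mul]
          omega
        rcases Nat.eq_zero_or_pos b with hb | hb
        · exact hno a 0 ha (by rw [hab, hb]; ring)
        · have := h₃.min (c₃ - b) (by omega) ⟨a, 0, e2⟩
          omega
    obtain ⟨he, hno⟩ := key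
    have hG2 : Gen Γ n₂ n₁ n₃ := hG.rot.swap
    have hB : Bound Γ n₂ M := by
      refine upper hG2 hM1 ⟨c₁, m1, ?_⟩ ⟨c₃, m3, ?_⟩ ?_
      · rw [hG2.le]
        obtain ⟨a, b, hab⟩ := h₁.ex
        rcases Nat.eq_zero_or_pos a with ha | ha
        · subst ha
          have hb : 0 < b := by
            rcases Nat.eq_zero_or_pos b with h | h
            · have := Nat.mul_pos h₁.pos p1
              rw [h] at hab
              omega
            · exact h
          have hb3 : c₃ ≤ b := h₃.min b hb ⟨c₁, 0, by omega⟩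
          obtain ⟨k, rfl⟩ := Nat.exists_eq_add_of_le hb3
          refine ⟨c₂ - 1, 0, k, ?_⟩
          have hc2 := h₂.pos
          obtain ⟨t, rfl⟩ : ∃ t, c₂ = t + 1 := ⟨c₂ - 1, by omega⟩
          simp only [Nat.add_sub_cancel]
          nlinarith [hab, he]
        · obtain ⟨t, rfl⟩ : ∃ t, a = t + 1 := ⟨a - 1, by omega⟩
          exact ⟨t, 0, b, by nlinarith [hab]⟩
      · rw [hG2.le]
        have hc2 := h₂.pos
        obtain ⟨t, rfl⟩ : ∃ t, c₂ = t + 1 := ⟨c₂ - 1, by omega⟩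
        exact ⟨t, 0, 0, by nlinarith [he]⟩
      · intro x y hx hy h h1 h2
        have e := mixed hG2 p2 h₂ hx hy h h1 h2
        exact absurd e.symm (hno x y hx)
    exact (min_le_right _ _).trans (Nat.sInf_le ⟨hM1, hB⟩)

/-- **The omega-primality values of three generators.**  Let `Γ` be the monoid generated by
`0 < n₁ < n₂ < n₃` (for instance a numerical monoid with these minimal generators).  The value
`omega Γ n` at each of the three generators is the least positive `N` with the defining property,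
`ω(n₃) ≥ min (ω(n₁)) (ω(n₂))`, and hence none of the three orderings `ω(n₁) > ω(n₂) > ω(n₃)`,
`ω(n₁) = ω(n₂) > ω(n₃)`, `ω(n₃) < ω(n₁) < ω(n₂)` holds. -/
theorem result (n₁ n₂ n₃ : ℕ) (h0 : 0 < n₁) (h12 : n₁ < n₂) (h23 : n₂ < n₃)
    (Γ : AddSubmonoid ℕ) (hΓ : Γ = AddSubmonoid.closure {n₁, n₂, n₃}) :
    (∀ n ∈ ({n₁, n₂, n₃} : Set ℕ), IsLeast {N | 1 ≤ N ∧ Bound Γ n N} (omega Γ n)) ∧
    min (omega Γ n₁) (omega Γ n₂) ≤ omega Γ n₃ ∧
    ¬ (omega Γ n₁ > omega Γ n₂ ∧ omega Γ n₂ > omega Γ n₃) ∧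
    ¬ (omega Γ n₁ = omega Γ n₂ ∧ omega Γ n₂ > omega Γ n₃) ∧
    ¬ (omega Γ n₃ < omega Γ n₁ ∧ omega Γ n₁ < omega Γ n₂) := by
  have hG : Gen Γ n₁ n₂ n₃ := by
    intro x
    rw [hΓ]
    exact mem_iff n₁ n₂ n₃ x
  have hmin := main hG h0 h12 h23
  refine ⟨?_, hmin, ?_, ?_, ?_⟩
  · rintro n (rfl | rfl | rfl)
    · exact isLeast hG h0 (by omega) (by omega)
    · exact isLeast hG.rot (by omega) (by omega) h0
    · exact isLeast hG.rot.rot (by omega) h0 (by omega)
  · rintro ⟨h1, h2⟩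
    rcases min_le_iff.1 hmin with h | h <;> omega
  · rintro ⟨h1, h2⟩
    rcases min_le_iff.1 hmin with h | h <;> omega
  · rintro ⟨h1, h2⟩
    rcases min_le_iff.1 hmin with h | h <;> omega

end Pool.Agent.Results.MP_1fb722_al.NoThreeOrderings
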